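import Mathlib
import Pool.Agent.H.MP_3d3a24_gt.A

namespace Pool.Agent.Results.MP_3d3a24_gt.No

open Metric Bornology

section
variable {E : Type} [NormedAddCommGroup E] [InnerProductSpace ℝ E]

/-- the viewing cone of `K` from `p` -/
def viewCone (K : Set E) (p : E) : Set E := {z | ∃ x ∈ K, ∃ t : ℝ, 0 ≤ t ∧ z = p + t • (x - p)}

/-- nonempty bounded centrally symmetric sets -/
def BddSym (A : Set E) : Prop :=
  A.Nonempty ∧ IsBounded A ∧ ∃ c : E, ∀ z ∈ A, (2 : ℝ) • c - z ∈ A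

/-- `K` appears centrally symmetric from `p` -/
def AppearsSym (K : Set E) (p : E) : Prop :=
  ∃ (ν : E) (b : ℝ), ν ≠ 0 ∧ inner ℝ ν p ≠ b ∧ BddSym (viewCone K p ∩ {z | inner ℝ ν z = b})

/-- ellipsoids -/
def IsEllipsoid (K : Set E) : Prop :=
  ∃ (c : E) (T : E ≃ₗ[ℝ] E), K = (fun x => c + T x) '' closedBall 0 1

/-- convex bodies -/
def IsConvexBody (K : Set E) : Prop := IsCompact K ∧ Convex ℝ K ∧ (interior K).Nonempty

/-- `K` lies in a bounded component of the complement of `S` -/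
def Inside (K S : Set E) : Prop := ∀ x ∈ K, x ∉ S ∧ IsBounded (connectedComponentIn Sᶜ x)

end

theorem result (n : ℕ) (hn : 3 ≤ n) : ∃ K S : Set (EuclideanSpace ℝ (Fin n)),
    IsConvexBody K ∧ Nonempty (S ≃ₜ sphere (0 : EuclideanSpace ℝ (Fin n)) 1) ∧
    (∃ L, IsConvexBody L ∧ S = frontier L) ∧ Inside K S ∧ (∀ p ∈ S, AppearsSym K p) ∧
    ¬ IsEllipsoid K := by
  open Pool.Agent.H.MP_3d3a24_gt in
  obtain ⟨w, hb, hne⟩ := concrete n ⟨0, by omega⟩ ⟨1, by omega⟩ (by simp)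
  open Pool.Agent.H.MP_3d3a24_gt in
  have hL : (interior (L n)).Nonempty := ⟨0, ball_int n 0 (by simp)⟩
  open Pool.Agent.H.MP_3d3a24_gt in
  refine ⟨K (uu n) w, frontier (L n), ⟨?_, K_convex _ _, ⟨0, ?_⟩⟩, ?_,
    ⟨L n, ⟨isCompact_of_isClosed_isBounded (L_closed n) (L_bdd n), L_convex n, hL⟩, rfl⟩,
    fun x hx => ?_, fun p hp => ?_, hne⟩
  · exact (isCompact_closedBall 0 1).of_isClosed_subset (K_closed _ _) (K_sub _ _)
  · exact interior_maximal (ball_subset_closedBall.trans hb) isOpen_ball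
      (mem_ball_self (by norm_num))
  · obtain ⟨h, -, -, h3⟩ := exists_homeomorph_image_interior_closure_frontier_eq_unitBall
      (L_convex n) hL (L_bdd n)
    exact ⟨(h.image _).trans (Homeomorph.setCongr h3)⟩
  · have h1 := ball_int n x hx.1
    exact ⟨fun h => h.2 h1, comp_bdd n x h1⟩
  · obtain ⟨j, hj⟩ := L_fr n p hp
    have hu := uu_norm n
    refine ⟨uu n j, 4 / 5, fun h => ?_, by rw [hj]; norm_num, ?_, ?_, (4 / 5 : ℝ) • uu n j, ?_⟩
    · have := hu j
      rw [h] at this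
      simp at this
    · refine ⟨(4 / 5 : ℝ) • uu n j, ⟨(4 / 5 : ℝ) • uu n j, hb ?_, 1, zero_le_one, by simp⟩, ?_⟩
      · rw [mem_closedBall_zero_iff, norm_smul, hu]; norm_num
      · show inner ℝ _ _ = _
        rw [inner_smul_right, real_inner_self_eq_norm_sq, hu]; norm_num
    · refine (isBounded_closedBall (x := 0) (r := ‖p‖ + 2 * (1 + ‖p‖))).subset fun z hz => ?_
      rw [mem_closedBall_zero_iff]
      exact (sym_sec (uu n) w hu j p hj z hz.1 hz.2).1
    · intro z hz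
      exact (sym_sec (uu n) w hu j p hj z hz.1 hz.2).2

end Pool.Agent.Results.MP_3d3a24_gt.No
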